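import Pool.Agent.P8H58.DL.StmA

/-!
# Project DL: INJ
-/

set_option autoImplicit false

open scoped Classical

namespace Pool.Agent.P8H76.DL

open Pool.Agent.Y63.NV Pool.Agent.P8H58.DL

theorem inj : S_INJ := by
  intro p hp F _ _ red n a b hn ha hb hab
  have hn0 : n ≠ 0 := by
    rintro rfl
    exact hn (dvd_zero p)
  have hia : IsIntegral ℤ a := IsIntegral.of_pow (Nat.pos_of_ne_zero hn0) (by rw [ha]; exact isIntegral_one)
  have hib : IsIntegral ℤ b := IsIntegral.of_pow (Nat.pos_of_ne_zero hn0) (by rw [hb]; exact isIntegral_one)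
  let a' : integralClosure ℤ ℂ := ⟨a, hia⟩
  let b' : integralClosure ℤ ℂ := ⟨b, hib⟩
  have ha' : a' ^ n = 1 := Subtype.ext (by show a ^ n = 1; exact ha)
  have hb' : b' ^ n = 1 := Subtype.ext (by show b ^ n = 1; exact hb)
  have hred : red a' = red b' := by
    have h1 : redC red a = red a' := by unfold redC; rw [dif_pos hia]
    have h2 : redC red b = red b' := by unfold redC; rw [dif_pos hib]
    rw [← h1, ← h2, hab]
  have hbn : b' ^ (n - 1) * b' = 1 := by rw [← pow_succ, Nat.sub_add_cancel (Nat.pos_of_ne_zero hn0), hb']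
  set c : integralClosure ℤ ℂ := a' * b' ^ (n - 1) with hc
  have hcn : c ^ n = 1 := by
    rw [hc, mul_pow, ha', ← pow_mul, mul_comm (n - 1) n, pow_mul, hb', one_pow, mul_one]
  have hrc : red c = 1 := by
    rw [hc, map_mul, hred, ← map_mul, mul_comm, hbn, map_one]
  have hc1 : c = 1 := by
    by_contra hne
    have h1 : (∑ i ∈ Finset.range n, c ^ i) * (c - 1) = 0 := by
      rw [geom_sum_mul, hcn, sub_self]
    have h2 : ∑ i ∈ Finset.range n, c ^ i = 0 :=
      (mul_eq_zero.1 h1).resolve_right (sub_ne_zero.2 hne)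
    have h3 := congrArg red h2
    rw [map_sum, map_zero] at h3
    simp only [map_pow, hrc, one_pow, Finset.sum_const, Finset.card_range, nsmul_eq_mul,
      mul_one] at h3
    exact hn ((CharP.cast_eq_zero_iff F p n).1 h3)
  have h4 : a' = b' := by
    calc a' = a' * (b' ^ (n - 1) * b') := by rw [hbn, mul_one]
      _ = c * b' := by rw [hc, mul_assoc]
      _ = b' := by rw [hc1, one_mul]
  exact congrArg Subtype.val h4

end Pool.Agent.P8H76.DL
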